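import Pool.Agent.Helper65.HF.StA

/-!
# Project HF: module GNR (the generic rank)
-/

set_option autoImplicit false

namespace Pool.Agent.Helper44.HF

open MvPolynomial Pool.Agent.Helper45 Pool.Agent.Helper65.HF

private theorem span_univ {K : Type} [Field K] {N r : ℕ} (f : Fin r → MvPolynomial (Fin N) K)
    (E : ℕ) : Gr.setPart f Finset.univ E = Submodule.span K
      (Set.range fun x : Fin r × {v : Fin N →₀ ℕ // v.degree = E} => f x.1 * monomial x.2.1 1) := by
  rw [Gr.setPart_eq_span]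
  congr 1
  ext y
  constructor
  · rintro ⟨⟨⟨a, _⟩, v⟩, rfl⟩
    exact ⟨(a, v), rfl⟩
  · rintro ⟨⟨a, v⟩, rfl⟩
    exact ⟨(⟨a, Finset.mem_univ a⟩, v), rfl⟩

private noncomputable def WW (k : Type) [Field k] (j N r E : ℕ)
    (x : Fin r × {v : Fin N →₀ ℕ // v.degree = E}) :
    MvPolynomial (Fin N) (MvPolynomial (ℕ × ℕ) k) := (lf (gP k) N x.1) ^ j * monomial x.2.1 1

private theorem e1 (k : Type) [Field k] (j N r E : ℕ) (P : ℕ × ℕ → k) :
    Submodule.span k (Set.range fun i => map (eval P) (WW k j N r E i)) =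
      Gr.setPart (Gr.pw (fun (a : Fin r) (s : Fin N) => P ((a : ℕ), (s : ℕ))) j) Finset.univ E := by
  rw [span_univ]
  congr 2
  funext x
  unfold WW Gr.pw linForm lf gP
  rw [map_mul, map_pow, map_sum, map_monomial, map_one]
  congr 2
  refine Finset.sum_congr rfl fun s _ => ?_
  rw [map_mul, map_C, map_X, eval_X]

private theorem e2 (k : Type) [Field k] (j N r E : ℕ) :
    Submodule.span (FractionRing (MvPolynomial (ℕ × ℕ) k)) (Set.range fun i =>
        map (algebraMap (MvPolynomial (ℕ × ℕ) k) (FractionRing (MvPolynomial (ℕ × ℕ) k)))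
          (WW k j N r E i)) =
      Gr.setPart (Gr.pw (fun (a : Fin r) (s : Fin N) => gF k a s) j) Finset.univ E := by
  rw [span_univ]
  congr 2
  funext x
  unfold WW Gr.pw linForm lf gP gF
  rw [map_mul, map_pow, map_sum, map_monomial, map_one]
  congr 2
  refine Finset.sum_congr rfl fun s _ => ?_
  rw [map_mul, map_C, map_X]

theorem hGNR : sGNR := by
  intro hSPC k _ _ j N r E
  haveI : Finite {v : Fin N →₀ ℕ // v.degree = E} := finite_degree E
  obtain ⟨h1, P, h2⟩ := hSPC k (Fin N) (ℕ × ℕ) (Fin r × {v : Fin N →₀ ℕ // v.degree = E})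
    (WW k j N r E)
  rw [e2] at h2
  apply le_antisymm
  · refine h2.trans ?_
    rw [e1]
    exact le_csSup (Gr.gen_bdd j E r) ⟨_, rfl⟩
  · obtain ⟨Q, hQ⟩ := Gr.gen_attained (k := k) (σ := Fin N) j E r
    let P' : ℕ × ℕ → k := fun p => if h : p.1 < r ∧ p.2 < N then Q ⟨p.1, h.1⟩ ⟨p.2, h.2⟩ else 0
    have h3 := h1 P'
    rw [e1, e2] at h3
    have h4 : (fun (a : Fin r) (s : Fin N) => P' ((a : ℕ), (s : ℕ))) = Q := by
      funext a s
      simp only [P']
      rw [dif_pos ⟨a.2, s.2⟩]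
    rw [h4, hQ] at h3
    exact h3

end Pool.Agent.Helper44.HF
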